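import Pool.Agent.MP_070445_nt.Main

/-! For almost all fundamental discriminants `log ε_D` exceeds
`c (log D) ^ (3 / 2) / √(log log D)`. -/

set_option autoImplicit false
open Pool.Agent.MP_070445_nt

namespace Pool.Agent.Results.MP_070445_nt.AlmostAll

theorem result : ∃ c : ℝ, 0 < c ∧
    Filter.Tendsto
      (fun N : ℕ =>
        (Set.ncard {D : ℕ | 1 ≤ D ∧ D ≤ N ∧ IsFund D ∧ UnitLe D
          (Real.exp (c * Real.log D ^ (3 / 2 : ℝ) / Real.sqrt (Real.log (Real.log D))))} : ℝ) /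
        (Set.ncard {D : ℕ | 1 ≤ D ∧ D ≤ N ∧ IsFund D} : ℝ))
      Filter.atTop (nhds 0) := by
  classical
  refine ⟨1 / 250000, by norm_num, ?_⟩
  refine squeeze_zero (fun N => by positivity) (fun N => ?_) almost_all
  rw [ncard_eq, ncard_eq]
  refine div_le_div_of_nonneg_right (Nat.cast_le.2 (Finset.card_le_card
    (Finset.monotone_filter_right _ fun D _ h => ⟨h.1, h.2.mono ?_⟩))) (by positivity)
  have : 0 ≤ Real.log D ^ (3 / 2 : ℝ) := Real.rpow_nonneg (Real.log_natCast_nonneg D) _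
  gcongr
  norm_num

end Pool.Agent.Results.MP_070445_nt.AlmostAll
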