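import Pool.Agent.MP_070445_nt.W71.All

namespace Pool.Agent.Results.MP_070445_nt.CharTwoUnits

open Polynomial

/-- Over a fixed finite field of characteristic two and for every `ε > 0` there are smooth curves
`Y² + B Y + A = 0` with `deg A < 2 deg B` and `n = deg B` arbitrarily large such that non-constant units
`t + u Y` exist and each has `deg u ≥ exp (n ^ (1/2 - ε))`. -/
theorem result (k : Type) [Field k] [Finite k] [CharP k 2] (ε : ℝ) (hε : 0 < ε) (n₀ : ℕ) :
    ∃ A B : k[X], B.Monic ∧ n₀ ≤ B.natDegree ∧ A.natDegree < 2 * B.natDegree ∧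
      IsCoprime B (derivative A ^ 2 + A * derivative B ^ 2) ∧
      (∃ t u : k[X], u ≠ 0 ∧ t ^ 2 + B * t * u + A * u ^ 2 = 1) ∧
      ∀ (t u : k[X]) (a : k), a ≠ 0 → u ≠ 0 → t ^ 2 + B * t * u + A * u ^ 2 = C a →
        Real.exp ((B.natDegree : ℝ) ^ (1 / 2 - ε)) ≤ u.natDegree :=
  Pool.Agent.MP_070445_nt.W71.all k ε hε n₀

end Pool.Agent.Results.MP_070445_nt.CharTwoUnits
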