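import Pool.Agent.MP_070445_nt.Main

/-! Power saving, uniform in `α`, for the number of `D ≤ N` with a unit of size at most `N ^ α`. -/

set_option autoImplicit false
open Pool.Agent.MP_070445_nt

namespace Pool.Agent.Results.MP_070445_nt.Count

theorem result : ∃ c C : ℝ, 0 < c ∧ 0 < C ∧
    ∀ (N : ℕ) (α : ℝ), 3 ≤ N → 1 ≤ α →
      (Set.ncard {D : ℕ | 1 ≤ D ∧ D ≤ N ∧ UnitLe D ((N : ℝ) ^ α)} : ℝ) ≤
        C * (N : ℝ) ^ (1 - c / α ^ 2) * Real.log N ^ 4 := by
  classical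
  refine ⟨1 / 250000, 1520, by norm_num, by norm_num, fun N α hN hα => ?_⟩
  rw [ncard_eq]
  exact count_bound N α hN hα

end Pool.Agent.Results.MP_070445_nt.Count
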