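import Pool.Agent.MP_070445_nt.V16.Main

namespace Pool.Agent.Results.MP_070445_nt.FunctionFieldUnits

open Polynomial

/-- Over a fixed finite field of odd characteristic there are monic squarefree polynomials `D` of
arbitrarily large even degree `n` such that every solution of the Pell equation with `u ≠ 0` has
degree at least `exp (exp √(log n))`. -/
theorem result (k : Type) [Field k] [Finite k] (hk : ringChar k ≠ 2) (n₀ : ℕ) :
    ∃ D : k[X], D.Monic ∧ Squarefree D ∧ Even D.natDegree ∧ n₀ ≤ D.natDegree ∧
      ∀ (t u : k[X]) (a : k), a ≠ 0 → u ≠ 0 → t ^ 2 - D * u ^ 2 = C a →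
        Real.exp (Real.exp (Real.sqrt (Real.log D.natDegree))) ≤ t.natDegree := by
  have : Fact (ringChar k).Prime := ⟨CharP.char_is_prime k _⟩
  exact H16v.main k (ringChar k) hk n₀

end Pool.Agent.Results.MP_070445_nt.FunctionFieldUnits
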